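import Pool.Agent.TH120.Sec.Gal

/-!
# The Kummer argument for sections over any extension that contains the roots of the ratios
-/

set_option autoImplicit false

namespace Pool.Agent.TH377.Loc

open Pool.Agent.W620.SC Pool.Agent.W623.SecC Pool.Agent.TH120.Sec Polynomial IntermediateField

universe u v w

/-- the sections of `Gal(M/F) → Gal(k̄/k)` -/
structure MSection (k : Type u) (F : Type v) (Ω : Type w) [Field k] [Field F] [Field Ω]
    [Algebra k F] [Algebra F Ω] [Algebra k Ω] (M : IntermediateField F Ω) where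
  toHom : (algebraicClosure k Ω ≃ₐ[k] algebraicClosure k Ω) →* (M ≃ₐ[F] M)
  cont : Continuous toHom
  compat : ∀ σ (x : algebraicClosure k Ω) (y : M), (y : Ω) = x → (toHom σ y : Ω) = σ x

/-- the constants in `M` -/
noncomputable def constM {k : Type u} {F : Type v} {Ω : Type w} [Field k] [Field F] [Field Ω]
    [Algebra k F] [Algebra F Ω] [Algebra k Ω] (M : IntermediateField F Ω)
    (hM : ∀ x : algebraicClosure k Ω, (x : Ω) ∈ M) : algebraicClosure k Ω →+* M :=
  (algebraMap (algebraicClosure k Ω) Ω).codRestrict M hM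

/-- the data attached to a section -/
noncomputable def mkM {k : Type u} {F : Type v} {Ω : Type w} [Field k] [Field F] [Field Ω]
    [Algebra k F] [Algebra F Ω] [Algebra k Ω] [IsScalarTower k F Ω] [CharZero k] [IsAlgClosed Ω]
    [Algebra.IsAlgebraic F Ω]
    (M : IntermediateField F Ω) (hM : ∀ x : algebraicClosure k Ω, (x : Ω) ∈ M)
    (G : MSection k F Ω M) (V : ValuationSubring (algebraicClosure k Ω))
    (S : IntermediateField k (algebraicClosure k Ω)) (ϖ : k) (ϖ0 : ϖ ≠ 0)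
    (ϖn : algebraMap k (algebraicClosure k Ω) ϖ ∈ V.nonunits)
    (tame : ∀ c ∈ S, c ≠ 0 → ∃ j : ℤ, IsU V (c / algebraMap k (algebraicClosure k Ω) ϖ ^ j))
    (φ : algebraicClosure k Ω ≃ₐ[k] algebraicClosure k Ω) (φV : ∀ x, φ x ∈ V ↔ x ∈ V)
    (φS : ∀ x, φ x ∈ S ↔ x ∈ S) : TDat k (algebraicClosure k Ω) M where
  s := (toRingAutHom F M).comp G.toHom
  ι := constM M hM
  hι := fun σ x => Subtype.ext (G.compat σ x (constM M hM x) rfl)
  cont := by
    intro w
    have h1 : {e : M ≃ₐ[F] M | e w = w} ∈ nhds (1 : M ≃ₐ[F] M) := by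
      rw [krullTopology_mem_nhds_one_iff]
      refine ⟨F⟮w⟯, ?_, ?_⟩
      · exact adjoin.finiteDimensional (Algebra.IsIntegral.isIntegral _)
      · intro e he
        exact (mem_fixingSubgroup_iff _ _).1 he _ (mem_adjoin_simple_self F _)
    have h2 := G.cont.tendsto 1
    rw [map_one] at h2
    have h3 := h2 h1
    rw [Filter.mem_map, krullTopology_mem_nhds_one_iff] at h3
    obtain ⟨E, hE, hE'⟩ := h3
    exact ⟨E, hE, fun σ hσ => hE' hσ⟩
  S := S
  V := V
  p := algebraMap k (algebraicClosure k Ω) ϖ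
  pS := S.algebraMap_mem _
  p0 := (_root_.map_ne_zero _).2 ϖ0
  pn := ϖn
  tame := tame
  φ := φ
  φp := φ.commutes ϖ
  φV := φV
  φS := φS

/-- no section -/
theorem galM {k : Type u} {F : Type v} {Ω : Type w} [Field k] [Field F] [Field Ω]
    [Algebra k F] [Algebra F Ω] [Algebra k Ω] [IsScalarTower k F Ω] [CharZero k] [IsAlgClosed Ω]
    [Algebra.IsAlgebraic F Ω]
    (M : IntermediateField F Ω) (hM : ∀ x : algebraicClosure k Ω, (x : Ω) ∈ M)
    (G : MSection k F Ω M) (V : ValuationSubring (algebraicClosure k Ω))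
    (S : IntermediateField k (algebraicClosure k Ω)) (ϖ : k) (ϖ0 : ϖ ≠ 0)
    (ϖn : algebraMap k (algebraicClosure k Ω) ϖ ∈ V.nonunits)
    (tame : ∀ c ∈ S, c ≠ 0 → ∃ j : ℤ, IsU V (c / algebraMap k (algebraicClosure k Ω) ϖ ^ j))
    (φ : algebraicClosure k Ω ≃ₐ[k] algebraicClosure k Ω) (φV : ∀ x, φ x ∈ V ↔ x ∈ V)
    (φS : ∀ x, φ x ∈ S ↔ x ∈ S) (ℓ : ℕ) (hℓ : ℓ.Prime) (hodd : ℓ ≠ 2)
    {X : Type*} [Fintype X] (θ : X → algebraicClosure k Ω) (hθS : ∀ i, θ i ∈ S)
    (hθ : Function.Injective θ) (π : Equiv.Perm X) (hπ : ∀ i, φ (θ i) = θ (π i))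
    (hcyc : ∀ (x : X) (i : ℕ), (π ^ i) x = x → ℓ ∣ i) (e : X → ℕ)
    (heπ : ∀ i, e (π i) = e i) (x y : F) (c : algebraicClosure k Ω) (hcS : c ∈ S) (m : ℤ)
    (hm : ¬ (ℓ : ℤ) ∣ m) (hc : IsU V (c / algebraMap k (algebraicClosure k Ω) ϖ ^ m))
    (hxy : (c : Ω) * algebraMap F Ω y ^ ℓ = ∏ i, (algebraMap F Ω x - (θ i : Ω)) ^ (e i))
    (hroot : ∀ i i', ∃ z ∈ M, z ^ ℓ = (algebraMap F Ω x - (θ i : Ω)) /
      (algebraMap F Ω x - (θ i' : Ω))) :
    False := by
  have hac : IsAlgClosure k (algebraicClosure k Ω) := inferInstance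
  have hA : IsAlgClosed (algebraicClosure k Ω) := hac.1
  have hc0 : c ≠ 0 := by
    rintro rfl
    rw [zero_div] at hc
    exact hc.1 rfl
  -- constants of `F`
  have hfixF : ∀ (z : F) (b : algebraicClosure k Ω), (b : Ω) = algebraMap F Ω z →
      ∀ σ : algebraicClosure k Ω ≃ₐ[k] algebraicClosure k Ω, σ b = b := by
    intro z b hb σ
    apply Subtype.ext
    rw [← G.compat σ b (algebraMap F M z) hb.symm, (G.toHom σ).commutes]
    exact hb.symm
  have hne : ∀ i, (θ i : Ω) ≠ algebraMap F Ω x := by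
    intro i hi
    have h1 := hfixF x (θ i) hi φ
    rw [hπ] at h1
    have h2 := hcyc i 1 (by rw [pow_one]; exact hθ h1)
    exact hℓ.one_lt.ne' (Nat.dvd_one.1 h2)
  have hne0 : ∀ i, algebraMap F Ω x - algebraMap (algebraicClosure k Ω) Ω (θ i) ≠ 0 :=
    fun i => sub_ne_zero.2 (Ne.symm (hne i))
  refine (mkM M hM G V S ϖ ϖ0 ϖn tame φ φV φS).abs ℓ hℓ hodd θ hθS π hπ hcyc e heπ
    (algebraMap F M x) (algebraMap F M y)
    (fun σ => (G.toHom σ).commutes x) (fun σ => (G.toHom σ).commutes y) c hcS m hm hc ?_ ?_ ?_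
  · apply (algebraMap M Ω).injective
    rw [map_mul, map_pow, map_prod]
    simp only [map_pow]
    exact hxy
  · intro i h
    exact hne i (congrArg (algebraMap M Ω) h).symm
  · intro i i'
    obtain ⟨z, hz, hz'⟩ := hroot i i'
    refine ⟨⟨z, hz⟩, ?_⟩
    apply (algebraMap M Ω).injective
    rw [map_pow, map_div₀, map_sub, map_sub]
    exact hz'

end Pool.Agent.TH377.Loc
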