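import Pool.Agent.W308.SecC.B2

/-!
# The splitting field of a polynomial with separable reduction is unramified, any residue field
-/

set_option autoImplicit false

namespace Pool.Agent.TH377.Loc

open Polynomial Pool.Agent.W623.SecC

universe u v w

/-- an algebra generated by roots of a separable polynomial is reduced -/
lemma reduced_of_roots {κ : Type u} {C : Type w} [Field κ] [CommRing C] [Algebra κ C] (f : κ[X])
    (hf : f.Separable) (s : Set C) (hfin : s.Finite) (hs : Algebra.adjoin κ s = ⊤)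
    (hroot : ∀ t ∈ s, aeval t f = 0) : IsReduced C := by
  have h1 : Algebra.FormallyUnramified κ C := by
    refine ⟨?_⟩
    have hD : KaehlerDifferential.D κ C = 0 := by
      refine Derivation.ext_of_adjoin_eq_top s hs fun t ht => ?_
      have h2 : KaehlerDifferential.D κ C (aeval t f) =
          aeval t f.derivative • KaehlerDifferential.D κ C t := Derivation.map_aeval _ _ _
      rw [hroot t ht, map_zero] at h2
      obtain ⟨a, b, hab⟩ := hf
      have h3 : aeval t b * aeval t f.derivative = 1 := by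
        have := congrArg (aeval t) hab
        rw [map_add, map_mul, map_mul, hroot t ht, mul_zero, zero_add, map_one] at this
        exact this
      change KaehlerDifferential.D κ C t = 0
      rw [← one_smul C (KaehlerDifferential.D κ C t), ← h3, mul_smul, ← h2, smul_zero]
    have h4 := KaehlerDifferential.span_range_derivation κ C
    have h5 : (Set.range (KaehlerDifferential.D κ C) : Set _) ⊆ {0} := by
      rintro _ ⟨x, rfl⟩
      rw [hD]
      rfl
    have h6 : (⊤ : Submodule C (Ω[C⁄κ])) = ⊥ := by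
      rw [← h4, eq_bot_iff, Submodule.span_le]
      exact h5
    exact (Submodule.subsingleton_iff C).1 (subsingleton_of_bot_eq_top h6.symm)
  have : Algebra.FiniteType κ C := ⟨hfin.toFinset, by rw [hfin.coe_toFinset]; exact hs⟩
  exact Algebra.FormallyUnramified.isReduced_of_field κ C

/-- in a reduced artinian ring, the elements of a prime ideal are killed by elements outside -/
lemma exists_kill {C : Type w} [CommRing C] [IsReduced C] [IsArtinianRing C] (P : Ideal C)
    [hP : P.IsPrime] (y : C) (hy : y ∈ P) : ∃ e, e ∉ P ∧ y * e = 0 := by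
  obtain ⟨n, z, hz⟩ := IsArtinian.exists_pow_succ_smul_dvd y (1 : C)
  rw [smul_eq_mul, smul_eq_mul, mul_one] at hz
  refine ⟨1 - y * z, fun h => ?_, ?_⟩
  · apply hP.ne_top
    rw [Ideal.eq_top_iff_one]
    have h1 := P.add_mem h (P.mul_mem_right z hy)
    rwa [sub_add_cancel] at h1
  · have h1 : (y * (1 - y * z)) ^ (n + 1) = 0 := by
      have h2 : y ^ n * (1 - y * z) = 0 := by
        rw [mul_sub, mul_one, ← mul_assoc, ← pow_succ, hz, sub_self]
      calc (y * (1 - y * z)) ^ (n + 1) = y ^ n * (1 - y * z) * (y * (1 - y * z) ^ n) := by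
            rw [mul_pow, pow_succ, pow_succ (1 - y * z)]
            ring
        _ = 0 := by rw [h2, zero_mul]
    exact pow_eq_zero_iff (n.succ_ne_zero) |>.1 h1

section main

variable {A k : Type u} {kb : Type w} [CommRing A] [IsDomain A] [IsDiscreteValuationRing A]
    [Field k] [Field kb] [Algebra A k] [Algebra k kb] [Algebra A kb] [IsScalarTower A k kb]
    [IsFractionRing A k]

/-- the ring generated by the roots -/
abbrev B1 (A : Type u) [CommRing A] (kb : Type w) [Field kb] [Algebra A kb] (f : A[X]) :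
    Subalgebra A kb :=
  Algebra.adjoin A {θ : kb | aeval θ f = 0}

lemma roots_fin {A : Type u} [CommRing A] {kb : Type w} [Field kb] [Algebra A kb] (f : A[X])
    (hf : IsUnit f.leadingCoeff) : {θ : kb | aeval θ f = 0}.Finite := by
  have hne : f.map (algebraMap A kb) ≠ 0 := by
    intro h0
    have h1 := congrArg (fun g => g.coeff f.natDegree) h0
    simp only [coeff_map, coeff_zero] at h1
    exact (hf.map (algebraMap A kb)).ne_zero h1
  classical
  refine (f.map (algebraMap A kb)).roots.toFinset.finite_toSet.subset ?_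
  intro θ hθ
  simp only [Finset.mem_coe, Multiset.mem_toFinset]
  rw [mem_roots hne, IsRoot.def, eval_map]
  exact hθ

/-- elements of a prime above the maximal ideal are killed modulo the uniformiser -/
lemma kill_mod (ϖ : A) (hϖ : Irreducible ϖ) (f : A[X]) (hf : IsUnit f.leadingCoeff)
    (hs : (f.map (IsLocalRing.residue A)).Separable) (P : Ideal (B1 A kb f)) [hP : P.IsPrime]
    (hϖP : algebraMap A (B1 A kb f) ϖ ∈ P) (y : B1 A kb f) (hy : y ∈ P) :
    ∃ e c : B1 A kb f, e ∉ P ∧ y * e = algebraMap A (B1 A kb f) ϖ * c := by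
  classical
  set I : Ideal (B1 A kb f) := Ideal.span {algebraMap A (B1 A kb f) ϖ} with hI
  have hker : ∀ a ∈ IsLocalRing.maximalIdeal A,
      ((Ideal.Quotient.mk I).comp (algebraMap A (B1 A kb f))) a = 0 := by
    intro a ha
    rw [hϖ.maximalIdeal_eq, Ideal.mem_span_singleton] at ha
    obtain ⟨b, rfl⟩ := ha
    rw [RingHom.comp_apply, map_mul, map_mul]
    have : (Ideal.Quotient.mk I) (algebraMap A (B1 A kb f) ϖ) = 0 :=
      Ideal.Quotient.eq_zero_iff_mem.2 (Ideal.mem_span_singleton_self _)
    rw [this, zero_mul]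
  let ψ : IsLocalRing.ResidueField A →+* (B1 A kb f ⧸ I) :=
    Ideal.Quotient.lift (IsLocalRing.maximalIdeal A)
      ((Ideal.Quotient.mk I).comp (algebraMap A (B1 A kb f))) hker
  have hψ : ψ.comp (IsLocalRing.residue A) =
      (Ideal.Quotient.mk I).comp (algebraMap A (B1 A kb f)) := by
    ext a; rfl
  let _ : Algebra (IsLocalRing.ResidueField A) (B1 A kb f ⧸ I) := ψ.toAlgebra
  -- the generators
  set s : Set (B1 A kb f ⧸ I) := {t | ∃ θ : B1 A kb f, aeval (θ : kb) f = 0 ∧
    t = Ideal.Quotient.mk I θ} with hsdef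
  have hsfin : s.Finite := by
    have h1 : s ⊆ (fun θ : B1 A kb f => Ideal.Quotient.mk I θ) '' {θ | aeval (θ : kb) f = 0} := by
      rintro _ ⟨θ, hθ, rfl⟩
      exact ⟨θ, hθ, rfl⟩
    refine Set.Finite.subset (Set.Finite.image _ ?_) h1
    exact Set.Finite.preimage Subtype.val_injective.injOn (roots_fin f hf)
  have hsroot : ∀ t ∈ s, aeval t (f.map (IsLocalRing.residue A)) = 0 := by
    rintro _ ⟨θ, hθ, rfl⟩
    have h1 : (f.map (IsLocalRing.residue A)).eval₂ ψ (Ideal.Quotient.mk I θ) = 0 := by
      rw [eval₂_map, hψ, ← hom_eval₂]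
      have h2 : eval₂ (algebraMap A (B1 A kb f)) θ f = 0 := by
        apply Subtype.ext
        have h3 := hom_eval₂ f (algebraMap A (B1 A kb f)) ((B1 A kb f).val.toRingHom) θ
        have h4 : (B1 A kb f).val.toRingHom.comp (algebraMap A (B1 A kb f)) = algebraMap A kb := by
          ext a; rfl
        rw [h4] at h3
        exact h3.trans hθ
      rw [h2, map_zero]
    exact h1
  have hstop : Algebra.adjoin (IsLocalRing.ResidueField A) s = ⊤ := by
    rw [eq_top_iff]
    have key : ∀ (x : kb) (hx : x ∈ B1 A kb f), Ideal.Quotient.mk I ⟨x, hx⟩ ∈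
        Algebra.adjoin (IsLocalRing.ResidueField A) s := by
      intro x hx
      induction hx using Algebra.adjoin_induction with
      | mem θ hθ =>
        exact Algebra.subset_adjoin ⟨⟨θ, Algebra.subset_adjoin hθ⟩, hθ, rfl⟩
      | algebraMap a =>
        exact Subalgebra.algebraMap_mem _ (IsLocalRing.residue A a)
      | add x y hx hy h1 h2 =>
        have hxB : x ∈ B1 A kb f := hx
        have hyB : y ∈ B1 A kb f := hy
        have h3 : (Ideal.Quotient.mk I ⟨x + y, (B1 A kb f).add_mem hxB hyB⟩) =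
            Ideal.Quotient.mk I ⟨x, hxB⟩ + Ideal.Quotient.mk I ⟨y, hyB⟩ := rfl
        rw [h3]
        exact add_mem h1 h2
      | mul x y hx hy h1 h2 =>
        have hxB : x ∈ B1 A kb f := hx
        have hyB : y ∈ B1 A kb f := hy
        have h3 : (Ideal.Quotient.mk I ⟨x * y, (B1 A kb f).mul_mem hxB hyB⟩) =
            Ideal.Quotient.mk I ⟨x, hxB⟩ * Ideal.Quotient.mk I ⟨y, hyB⟩ := rfl
        rw [h3]
        exact mul_mem h1 h2
    intro t _
    obtain ⟨x, rfl⟩ := Ideal.Quotient.mk_surjective t
    exact key x.1 x.2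
  have hred : IsReduced (B1 A kb f ⧸ I) := reduced_of_roots _ hs s hsfin hstop hsroot
  have hft : Algebra.FiniteType (IsLocalRing.ResidueField A) (B1 A kb f ⧸ I) :=
    ⟨hsfin.toFinset, by rw [hsfin.coe_toFinset]; exact hstop⟩
  have hfin : Module.Finite (IsLocalRing.ResidueField A) (B1 A kb f ⧸ I) := by
    have h1 := Algebra.finite_adjoin_of_finite_of_isIntegral
      (R := IsLocalRing.ResidueField A) hsfin (fun t ht =>
        (⟨C (f.map (IsLocalRing.residue A)).leadingCoeff⁻¹ * f.map (IsLocalRing.residue A), by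
          have h2 : (f.map (IsLocalRing.residue A)).leadingCoeff ≠ 0 :=
            leadingCoeff_ne_zero.2 hs.ne_zero
          rw [Monic, leadingCoeff_mul, leadingCoeff_C, inv_mul_cancel₀ h2], by
          have h3 := hsroot t ht
          rw [eval₂_mul]
          have h4 : eval₂ (algebraMap (IsLocalRing.ResidueField A) (B1 A kb f ⧸ I)) t
            (f.map (IsLocalRing.residue A)) = 0 := h3
          rw [h4, mul_zero]⟩ : IsIntegral (IsLocalRing.ResidueField A) t))
    rw [hstop] at h1
    exact Module.Finite.equiv (Subalgebra.topEquiv.toLinearEquiv)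
  have hart : IsArtinianRing (B1 A kb f ⧸ I) :=
    IsArtinianRing.of_finite (IsLocalRing.ResidueField A) _
  have hIP : I ≤ P := (Ideal.span_singleton_le_iff_mem P).2 hϖP
  set P' : Ideal (B1 A kb f ⧸ I) := P.map (Ideal.Quotient.mk I) with hP'
  have hP'p : P'.IsPrime := Ideal.map_isPrime_of_surjective Ideal.Quotient.mk_surjective (by
    rw [Ideal.mk_ker]; exact hIP)
  have hmem : ∀ x : B1 A kb f, Ideal.Quotient.mk I x ∈ P' ↔ x ∈ P := by
    intro x
    rw [hP', ← Ideal.mem_comap, Ideal.comap_map_of_surjective _ Ideal.Quotient.mk_surjective,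
      ← RingHom.ker_eq_comap_bot, Ideal.mk_ker, sup_eq_left.mpr hIP]
  obtain ⟨e', he', hye⟩ := exists_kill P' (Ideal.Quotient.mk I y) ((hmem y).2 hy)
  obtain ⟨e, rfl⟩ := Ideal.Quotient.mk_surjective e'
  rw [hmem] at he'
  rw [← map_mul, Ideal.Quotient.eq_zero_iff_mem, hI, Ideal.mem_span_singleton'] at hye
  obtain ⟨c, hc⟩ := hye
  exact ⟨e, c, he', by rw [← hc, mul_comm]⟩

/-- nonzero elements of `B1` are powers of the uniformizer times units -/
lemma core (V : ValuationSubring kb) (hA : ∀ a : A, algebraMap A kb a ∈ V)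
    (hm : ∀ a ∈ IsLocalRing.maximalIdeal A, algebraMap A kb a ∈ V.nonunits)
    (hinj : Function.Injective (algebraMap A kb))
    (ϖ : A) (hϖ : Irreducible ϖ) (f : A[X]) (hf : IsUnit f.leadingCoeff)
    (hs : (f.map (IsLocalRing.residue A)).Separable)
    (b : kb) (hb : b ∈ B1 A kb f) (hb0 : b ≠ 0) :
    ∃ j : ℕ, V.valuation (b / algebraMap A kb ϖ ^ j) = 1 := by
  have hBV : ∀ x ∈ B1 A kb f, x ∈ V := by
    intro x hx
    induction hx using Algebra.adjoin_induction with
    | mem θ hθ => exact Pool.Agent.W308.SecC.root_mem V hA f hf θ hθ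
    | algebraMap a => exact hA a
    | add x y _ _ h1 h2 => exact V.add_mem _ _ h1 h2
    | mul x y _ _ h1 h2 => exact V.mul_mem _ _ h1 h2
  let incl : B1 A kb f →+* V :=
    ((B1 A kb f).val.toRingHom).codRestrict V.toSubring (fun x => hBV x.1 x.2)
  let P : Ideal (B1 A kb f) := (IsLocalRing.maximalIdeal V).comap incl
  have hPp : P.IsPrime := Ideal.comap_isPrime _ _
  have hP : ∀ x : B1 A kb f, x ∈ P ↔ V.valuation (x : kb) < 1 := fun x =>
    V.valuation_lt_one_iff (incl x)
  have hval : ∀ x : B1 A kb f, x ∉ P → V.valuation (x : kb) = 1 := by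
    intro x hx
    rw [hP, not_lt] at hx
    exact le_antisymm ((V.valuation_le_one_iff _).2 (hBV x.1 x.2)) hx
  have : Algebra.FiniteType A (B1 A kb f) :=
    (Subalgebra.fg_iff_finiteType _).1 (Subalgebra.fg_def.2 ⟨_, roots_fin f hf, rfl⟩)
  have : IsNoetherianRing (B1 A kb f) := Algebra.FiniteType.isNoetherianRing A (B1 A kb f)
  set ϖB : B1 A kb f := algebraMap A (B1 A kb f) ϖ with hϖB
  have hϖm : ϖ ∈ IsLocalRing.maximalIdeal A := by
    rw [hϖ.maximalIdeal_eq]; exact Ideal.mem_span_singleton_self _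
  have hϖP : ϖB ∈ P := by
    rw [hP]
    exact (ValuationSubring.mem_nonunits_iff V).1 (hm ϖ hϖm)
  have hϖ0 : algebraMap A kb ϖ ≠ 0 := fun h => hϖ.ne_zero (hinj (by rw [h, map_zero]))
  let Bp := Localization.AtPrime P
  have : IsNoetherianRing Bp := IsLocalization.isNoetherianRing P.primeCompl Bp inferInstance
  set M := IsLocalRing.maximalIdeal Bp with hM
  have hMle : M ≤ Ideal.span {algebraMap (B1 A kb f) Bp ϖB} := by
    intro x hx
    obtain ⟨y, s, rfl⟩ := IsLocalization.exists_mk'_eq P.primeCompl x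
    have hy : y ∈ P := (IsLocalization.AtPrime.mk'_mem_maximal_iff Bp P y s).1 hx
    obtain ⟨e, c, he, hye⟩ := kill_mod ϖ hϖ f hf hs P hϖP y hy
    rw [Ideal.mem_span_singleton']
    refine ⟨IsLocalization.mk' Bp c (s * ⟨e, he⟩), ?_⟩
    rw [mul_comm, IsLocalization.mul_mk'_eq_mk'_of_mul, IsLocalization.mk'_eq_iff_eq]
    congr 1
    push_cast
    rw [← hye]
    ring
  have hϖM : algebraMap (B1 A kb f) Bp ϖB ∈ M :=
    (IsLocalization.AtPrime.to_map_mem_maximal_iff Bp P ϖB).2 hϖP
  have hinjB : Function.Injective (algebraMap (B1 A kb f) Bp) :=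
    IsLocalization.injective Bp P.primeCompl_le_nonZeroDivisors
  set b' : B1 A kb f := ⟨b, hb⟩ with hb'
  have hx0 : algebraMap (B1 A kb f) Bp b' ≠ 0 := by
    rw [map_ne_zero_iff _ hinjB]
    exact fun h => hb0 (congrArg Subtype.val h)
  have hkrull := Ideal.iInf_pow_eq_bot_of_isLocalRing M (IsLocalRing.maximalIdeal.isMaximal Bp).ne_top
  have hex : ∃ n, algebraMap (B1 A kb f) Bp b' ∉ M ^ n := by
    by_contra hcon
    push Not at hcon
    apply hx0
    have : algebraMap (B1 A kb f) Bp b' ∈ ⨅ i, M ^ i := by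
      rw [Ideal.mem_iInf]; exact hcon
    rw [hkrull] at this
    exact this
  classical
  have hn := Nat.find_spec hex
  have hmin := fun m (hm : m < Nat.find hex) => not_not.1 (Nat.find_min hex hm)
  obtain ⟨j, hj⟩ : ∃ j, Nat.find hex = j + 1 := by
    apply Nat.exists_eq_succ_of_ne_zero
    intro h0
    rw [h0, pow_zero, Ideal.one_eq_top] at hn
    exact hn Submodule.mem_top
  rw [hj] at hn
  have hxj : algebraMap (B1 A kb f) Bp b' ∈ M ^ j := hmin j (by omega)
  have hxj' : algebraMap (B1 A kb f) Bp b' ∈ Ideal.span {algebraMap (B1 A kb f) Bp ϖB ^ j} := by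
    rw [← Ideal.span_singleton_pow]
    exact Ideal.pow_right_mono hMle j hxj
  obtain ⟨u, hu⟩ := Ideal.mem_span_singleton'.1 hxj'
  have huM : u ∉ M := by
    intro h
    apply hn
    rw [← hu, pow_succ']
    exact Ideal.mul_mem_mul h (Ideal.pow_mem_pow hϖM j)
  obtain ⟨c, s, rfl⟩ := IsLocalization.exists_mk'_eq P.primeCompl u
  have hc : c ∉ P := fun h => huM ((IsLocalization.AtPrime.mk'_mem_maximal_iff Bp P c s).2 h)
  have h5 : b' * s = ϖB ^ j * c := by
    apply hinjB
    rw [map_mul, ← hu, map_mul, map_pow]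
    have h6 := IsLocalization.mk'_spec Bp c s
    linear_combination (algebraMap (B1 A kb f) Bp ϖB ^ j) * h6
  have h7 : b * (s : B1 A kb f) = algebraMap A kb ϖ ^ j * c := congrArg Subtype.val h5
  refine ⟨j, ?_⟩
  have h8 : b / algebraMap A kb ϖ ^ j = (c : kb) / ((s : B1 A kb f) : kb) := by
    have hs0 : ((s : B1 A kb f) : kb) ≠ 0 := by
      intro h
      have := hval s.1 s.2
      rw [h, map_zero] at this
      exact zero_ne_one this
    rw [div_eq_div_iff (pow_ne_zero _ hϖ0) hs0, h7, mul_comm]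
  rw [h8, map_div₀, hval c hc, hval s.1 s.2, div_one]

end main

/-- the splitting field of a polynomial with separable reduction is unramified -/
theorem tame (A k : Type u) (kb : Type w) [CommRing A] [IsDomain A] [IsDiscreteValuationRing A]
    [Field k] [Field kb] [Algebra A k] [Algebra k kb] [Algebra A kb] [IsScalarTower A k kb]
    [IsFractionRing A k] [Algebra.IsAlgebraic k kb]
    (V : ValuationSubring kb) (hA : ∀ a : A, algebraMap A kb a ∈ V)
    (hm : ∀ a ∈ IsLocalRing.maximalIdeal A, algebraMap A kb a ∈ V.nonunits)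
    (ϖ : A) (hϖ : Irreducible ϖ) (f : A[X]) (hf : IsUnit f.leadingCoeff)
    (hs : (f.map (IsLocalRing.residue A)).Separable)
    (c : kb) (hc : c ∈ IntermediateField.adjoin k {θ : kb | aeval θ f = 0}) (hc0 : c ≠ 0) :
    ∃ j : ℤ, IsU V (c / algebraMap A kb ϖ ^ j) := by
  have hinj : Function.Injective (algebraMap A kb) := by
    rw [IsScalarTower.algebraMap_eq A k kb]
    exact (algebraMap k kb).injective.comp (IsFractionRing.injective A k)
  have hc' : c ∈ Algebra.adjoin k {θ : kb | aeval θ f = 0} := by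
    rw [← IntermediateField.adjoin_toSubalgebra_of_isAlgebraic
      (fun x _ => Algebra.IsAlgebraic.isAlgebraic x)]
    exact hc
  have h1 : ∃ a : A, a ≠ 0 ∧ algebraMap A kb a * c ∈ B1 A kb f := by
    clear hc hc0
    induction hc' using Algebra.adjoin_induction with
    | mem θ hθ =>
      refine ⟨1, one_ne_zero, ?_⟩
      rw [map_one, one_mul]
      exact Algebra.subset_adjoin hθ
    | algebraMap r =>
      obtain ⟨x, y, hy, rfl⟩ := IsFractionRing.div_surjective (A := A) r
      have hy0 : y ≠ 0 := nonZeroDivisors.ne_zero hy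
      refine ⟨y, hy0, ?_⟩
      have h2 : algebraMap A kb y ≠ 0 := fun h => hy0 (hinj (by rw [h, map_zero]))
      have h3 : algebraMap A kb y * algebraMap k kb (algebraMap A k x / algebraMap A k y) =
          algebraMap A kb x := by
        rw [map_div₀, ← IsScalarTower.algebraMap_apply, ← IsScalarTower.algebraMap_apply]
        field_simp
      rw [h3]
      exact (B1 A kb f).algebraMap_mem x
    | add x y _ _ hx hy =>
      obtain ⟨a, ha, ha'⟩ := hx
      obtain ⟨a', h2, h2'⟩ := hy
      refine ⟨a * a', mul_ne_zero ha h2, ?_⟩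
      have : algebraMap A kb (a * a') * (x + y) = algebraMap A kb a' * (algebraMap A kb a * x) +
          algebraMap A kb a * (algebraMap A kb a' * y) := by rw [map_mul]; ring
      rw [this]
      exact (B1 A kb f).add_mem ((B1 A kb f).mul_mem ((B1 A kb f).algebraMap_mem a') ha')
        ((B1 A kb f).mul_mem ((B1 A kb f).algebraMap_mem a) h2')
    | mul x y _ _ hx hy =>
      obtain ⟨a, ha, ha'⟩ := hx
      obtain ⟨a', h2, h2'⟩ := hy
      refine ⟨a * a', mul_ne_zero ha h2, ?_⟩
      have : algebraMap A kb (a * a') * (x * y) = (algebraMap A kb a * x) *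
          (algebraMap A kb a' * y) := by rw [map_mul]; ring
      rw [this]
      exact (B1 A kb f).mul_mem ha' h2'
  obtain ⟨a, ha, hac⟩ := h1
  have ha0 : algebraMap A kb a ≠ 0 := fun h => ha (hinj (by rw [h, map_zero]))
  obtain ⟨j, hj⟩ := core V hA hm hinj ϖ hϖ f hf hs _ hac (mul_ne_zero ha0 hc0)
  obtain ⟨i, u, hu⟩ := IsDiscreteValuationRing.eq_unit_mul_pow_irreducible ha hϖ
  have hϖ0 : algebraMap A kb ϖ ≠ 0 := fun h => hϖ.ne_zero (hinj (by rw [h, map_zero]))
  have hu0 : algebraMap A kb (u : A) ≠ 0 := (u.isUnit.map (algebraMap A kb)).ne_zero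
  have hvu : V.valuation (algebraMap A kb (u : A)) = 1 := by
    have h2 := (V.valuation_le_one_iff _).2 (hA u)
    have h3 := (V.valuation_le_one_iff _).2 (hA (u⁻¹ : Aˣ))
    have h4 : V.valuation (algebraMap A kb (u : A)) * V.valuation (algebraMap A kb (u⁻¹ : Aˣ)) = 1 := by
      rw [← map_mul, ← map_mul, Units.mul_inv, map_one, map_one]
    refine le_antisymm h2 ?_
    calc 1 = V.valuation (algebraMap A kb (u : A)) * V.valuation (algebraMap A kb (u⁻¹ : Aˣ)) :=
        h4.symm
      _ ≤ V.valuation (algebraMap A kb (u : A)) * 1 := mul_le_mul_right h3 _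
      _ = _ := mul_one _
  refine ⟨(j : ℤ) - i, Pool.Agent.W308.SecC.isU_of_val V ?_⟩
  have h5 : c / algebraMap A kb ϖ ^ ((j : ℤ) - i) =
      (algebraMap A kb a * c / algebraMap A kb ϖ ^ j) / algebraMap A kb (u : A) := by
    rw [zpow_sub₀ hϖ0, zpow_natCast, zpow_natCast, hu, map_mul, map_pow]
    field_simp
  rw [h5, map_div₀, hj, hvu, div_one]

end Pool.Agent.TH377.Loc
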